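import Pool.Agent.Helper5.FS.Stmts

/-!
FS, row MG1: merging two blocks of a partition gives a partition with one block less.
-/

set_option autoImplicit false

open Finset

namespace Pool.Agent.Helper5.FS

namespace Mg13

theorem disj {n : ℕ} {P : Finset (Finset (Fin n))} {A B C : Finset (Fin n)} (hP : Pt P)
    (hA : A ∈ P) (hB : B ∈ P) (hC : C ∈ P) (h1 : C ≠ A) (h2 : C ≠ B) : Disjoint (A ∪ B) C := by
  rw [disjoint_union_left]
  exact ⟨hP.2.1 A hA C hC (Ne.symm h1), hP.2.1 B hB C hC (Ne.symm h2)⟩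

theorem mem_er {n : ℕ} {P : Finset (Finset (Fin n))} {A B C : Finset (Fin n)} :
    C ∈ (P.erase A).erase B ↔ C ≠ B ∧ C ≠ A ∧ C ∈ P := by
  rw [mem_erase, mem_erase]

theorem notMem {n : ℕ} {P : Finset (Finset (Fin n))} {A B : Finset (Fin n)} (hP : Pt P)
    (hA : A ∈ P) (hB : B ∈ P) : A ∪ B ∉ (P.erase A).erase B := by
  intro h
  rw [mem_er] at h
  have h1 := disj hP hA hB h.2.2 h.2.1 h.1
  rw [disjoint_self] at h1
  obtain ⟨v, hv⟩ := hP.1 A hA
  have h2 : v ∈ A ∪ B := mem_union_left _ hv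
  rw [h1] at h2
  exact absurd h2 (notMem_empty v)

end Mg13

theorem st_MG1 : ST_MG1 := by
  intro n P A B hP hA hB hAB
  refine ⟨⟨?_, ?_, ?_⟩, ?_⟩
  · intro D hD
    unfold mg at hD
    rw [mem_insert] at hD
    rcases hD with rfl | hD
    · exact (hP.1 A hA).mono subset_union_left
    · exact hP.1 D (Mg13.mem_er.1 hD).2.2
  · intro D hD C hC hne
    unfold mg at hD hC
    rw [mem_insert] at hD hC
    rcases hD with rfl | hD
    · rcases hC with rfl | hC
      · exact absurd rfl hne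
      · have h := Mg13.mem_er.1 hC
        exact Mg13.disj hP hA hB h.2.2 h.2.1 h.1
    · have h := Mg13.mem_er.1 hD
      rcases hC with rfl | hC
      · exact (Mg13.disj hP hA hB h.2.2 h.2.1 h.1).symm
      · exact hP.2.1 D h.2.2 C (Mg13.mem_er.1 hC).2.2 hne
  · intro v
    obtain ⟨C, hC, hv⟩ := hP.2.2 v
    unfold mg
    by_cases h1 : C = A
    · exact ⟨A ∪ B, mem_insert_self _ _, mem_union_left _ (h1 ▸ hv)⟩
    · by_cases h2 : C = B
      · exact ⟨A ∪ B, mem_insert_self _ _, mem_union_right _ (h2 ▸ hv)⟩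
      · exact ⟨C, mem_insert_of_mem (Mg13.mem_er.2 ⟨h2, h1, hC⟩), hv⟩
  · unfold mg
    have hB' : B ∈ P.erase A := mem_erase.2 ⟨hAB.symm, hB⟩
    rw [card_insert_of_notMem (Mg13.notMem hP hA hB), card_erase_of_mem hB', card_erase_of_mem hA]
    have h1 : 1 < P.card := one_lt_card.2 ⟨A, hA, B, hB, hAB⟩
    omega

end Pool.Agent.Helper5.FS
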