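import Pool.Agent.Helper5.FS.Stmts2

/-!
FS, row PR2: many pairs of small blocks inside one block of `Q` (general form; as helper7's PRS).
-/

set_option autoImplicit false

open Finset

namespace Pool.Agent.Helper5.FS

theorem st_PR2 (h1 : ST_SM2) (h2 : ST_CVX) : ST_PR2 := by
  classical
  intro n m q s k P Q hP hQ hm hq hR hq1 hkm hn hqm
  obtain ⟨f, hf⟩ : ∃ f : Finset (Fin n) → Finset (Fin n), ∀ B ∈ P, f B ∈ Q ∧ B ⊆ f B := by
    refine ⟨fun B => if h : B ∈ P then (hR B h).choose else ∅, fun B hB => ?_⟩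
    simp only [hB, dif_pos]
    exact (hR B hB).choose_spec
  have hk := h1 n s m k P hP hm hkm hn
  have hc := h2 _ _ (P.filter (fun B => B.card ≤ s)) Q f
    (fun a ha => (hf a (mem_filter.1 ha).1).1)
  set K := P.filter (fun B => B.card ≤ s) with hK
  have hg : ((K ×ˢ K).filter (fun p => p.1 ≠ p.2 ∧ f p.1 = f p.2)).card ≤
      ((univ : Finset (Finset (Fin n) × Finset (Fin n))).filter
    (fun p => p.1 ∈ P ∧ p.2 ∈ P ∧ p.1 ≠ p.2 ∧ p.1.card ≤ s ∧ p.2.card ≤ s ∧
      ∃ C ∈ Q, p.1 ⊆ C ∧ p.2 ⊆ C)).card := by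
    apply card_le_card
    intro p hp
    obtain ⟨hpp, hne, hff⟩ := mem_filter.1 hp
    obtain ⟨p1, p2⟩ := mem_product.1 hpp
    obtain ⟨a1, a2⟩ := mem_filter.1 p1
    obtain ⟨b1, b2⟩ := mem_filter.1 p2
    refine mem_filter.2 ⟨mem_univ _, a1, b1, hne, a2, b2, f p.1, (hf _ a1).1, (hf _ a1).2, ?_⟩
    rw [hff]
    exact (hf _ b1).2
  refine le_trans ?_ hg
  generalize ((K ×ˢ K).filter (fun p => p.1 ≠ p.2 ∧ f p.1 = f p.2)).card = g at hc
  generalize K.card = k0 at hk hc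
  have hc2 : k0 * k0 ≤ q * (k0 + g) := hc.trans (Nat.mul_le_mul_right _ hq)
  have hW : 1 ≤ (2 : ℕ) ^ (2 * s) := Nat.one_le_two_pow
  generalize (2 : ℕ) ^ (2 * s) = W at *
  rcases Nat.eq_zero_or_pos k with rfl | hk0
  · have h3 : m * W = 0 := by
      have h4 : q * (m * W) ≤ 0 := by simpa using hqm
      rcases Nat.mul_eq_zero.1 (Nat.le_zero.1 h4) with h5 | h5
      · omega
      · exact h5
    rw [h3]
    exact Nat.zero_le _
  · by_contra hcon
    push Not at hcon
    have c1 : (k0 : ℤ) * k0 ≤ q * (k0 + g) := by exact_mod_cast hc2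
    have c2 : (q : ℤ) * (m * W + k) ≤ k * k := by exact_mod_cast hqm
    have c3 : (k : ℤ) ≤ k0 := by exact_mod_cast hk
    have c4 : (g : ℤ) + 1 ≤ m * W := by exact_mod_cast hcon
    have c5 : (1 : ℤ) ≤ q := by exact_mod_cast hq1
    have c6 : (1 : ℤ) ≤ W := by exact_mod_cast hW
    have c7 : (k : ℤ) ≤ m := by exact_mod_cast hkm
    have c8 : (1 : ℤ) ≤ k := by exact_mod_cast hk0
    have d0 : (k : ℤ) ≤ m * W := by nlinarith
    have d1 : (q : ℤ) * (k + k) ≤ k * k :=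
      (mul_le_mul_of_nonneg_left (by linarith) (by linarith)).trans c2
    have d2 : (2 : ℤ) * q ≤ k := by
      by_contra h5
      push Not at h5
      nlinarith
    have d3 : (q : ℤ) * (k0 + g) ≤ q * (k0 + (m * W - 1)) := by
      apply mul_le_mul_of_nonneg_left _ (by linarith)
      linarith
    have d4 : (0 : ℤ) ≤ (k0 - k) * (k0 + k - q) := mul_nonneg (by linarith) (by linarith)
    nlinarith

end Pool.Agent.Helper5.FS
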